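import Pool.Agent.H97.HV.Targets2

/-!
# MP_e37c09_lc, row LCV: the number of the positive classes and local definability
-/

open Ordinal Cardinal Order Set
open scoped ZFSet

universe u

namespace Pool.Agent.H68.HV

open _root_.HD HD.PRK HD.HV

/-- agreement, for sets -/
def AV (F x y n : ZFSet.{u}) : Prop := n.IsOrdinal ∧ AgV F x y n.rank

/-- a positive class, for sets -/
def PCS (μ ρ F x n : ZFSet.{u}) : Prop :=
  μ.IsOrdinal ∧ ρ.IsOrdinal ∧ n.IsOrdinal ∧ PcV μ.rank ρ.rank F x n.rank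

theorem loc_av (h : T_LAV.{u}) (a b c d : ℕ) :
    Loc.{u} fun v => AV (v a) (v b) (v c) (v d) :=
  h.2.1.ren fun n => if n = 0 then a else if n = 1 then b else if n = 2 then c else d

theorem loc_pcs (h : T_LAV.{u}) (a b c d e : ℕ) :
    Loc.{u} fun v => PCS (v a) (v b) (v c) (v d) (v e) :=
  h.2.2.ren fun n => if n = 0 then a else if n = 1 then b else if n = 2 then c else
    if n = 3 then d else e

theorem av_iff {n : Ordinal.{u}} {F x y : ZFSet.{u}} : AV F x y n.toZFSet ↔ AgV F x y n := by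
  unfold AV
  simp only [ZFSet.isOrdinal_toZFSet, rank_toZFSet, true_and]

theorem pcs_iff {μ ρ n : Ordinal.{u}} {F x : ZFSet.{u}} :
    PCS μ.toZFSet ρ.toZFSet F x n.toZFSet ↔ PcV μ ρ F x n := by
  unfold PCS
  simp only [ZFSet.isOrdinal_toZFSet, rank_toZFSet, true_and]

/-- smallness of the set of the positive classes -/
def Cs (μ ρ F n δ p : ZFSet.{u}) : Prop :=
  ∃ τ ∈ δ, ∃ h ⊆ p, ∀ x ⊆ ρ, PCS μ ρ F x n →
    ∃ i ∈ τ, ∃ y ⊆ ρ, ZFSet.pair i y ∈ h ∧ AV F x y n ∧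
      ∀ y' ⊆ ρ, ZFSet.pair i y' ∈ h → y' = y

theorem loc_cs (h : T_LAV.{u}) (a b c d e g : ℕ) :
    Loc.{u} fun v => Cs (v a) (v b) (v c) (v d) (v e) (v g) :=
  Loc.exMem (R := fun τ v => ∃ h ⊆ v g, ∀ x ⊆ v b, PCS (v a) (v b) (v c) x (v d) →
      ∃ i ∈ τ, ∃ y ⊆ v b, ZFSet.pair i y ∈ h ∧ AV (v c) x y (v d) ∧
        ∀ y' ⊆ v b, ZFSet.pair i y' ∈ h → y' = y) e
    (Loc.exSub (R := fun h v => ∀ x ⊆ v (b + 1),
        PCS (v (a + 1)) (v (b + 1)) (v (c + 1)) x (v (d + 1)) →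
      ∃ i ∈ v 0, ∃ y ⊆ v (b + 1), ZFSet.pair i y ∈ h ∧ AV (v (c + 1)) x y (v (d + 1)) ∧
        ∀ y' ⊆ v (b + 1), ZFSet.pair i y' ∈ h → y' = y) (g + 1)
      (Loc.allSub (R := fun x v => PCS (v (a + 2)) (v (b + 2)) (v (c + 2)) x (v (d + 2)) →
        ∃ i ∈ v 1, ∃ y ⊆ v (b + 2), ZFSet.pair i y ∈ v 0 ∧ AV (v (c + 2)) x y (v (d + 2)) ∧
          ∀ y' ⊆ v (b + 2), ZFSet.pair i y' ∈ v 0 → y' = y) (b + 2)
        ((loc_pcs h (a + 3) (b + 3) (c + 3) 0 (d + 3)).imp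
          (Loc.exMem (R := fun i v => ∃ y ⊆ v (b + 3), ZFSet.pair i y ∈ v 1 ∧
              AV (v (c + 3)) (v 0) y (v (d + 3)) ∧
              ∀ y' ⊆ v (b + 3), ZFSet.pair i y' ∈ v 1 → y' = y) 2
            (Loc.exSub (R := fun y v => ZFSet.pair (v 0) y ∈ v 2 ∧
                AV (v (c + 4)) (v 1) y (v (d + 4)) ∧
                ∀ y' ⊆ v (b + 4), ZFSet.pair (v 0) y' ∈ v 2 → y' = y) (b + 4)
              ((loc_pmem 1 0 3).and ((loc_av h (c + 5) 2 0 (d + 5)).and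
                (Loc.allSub (R := fun y' v => ZFSet.pair (v 1) y' ∈ v 3 → y' = v 0) (b + 5)
                  ((loc_pmem 2 0 4).imp (Loc.eq 0 1))))))))))

theorem agv_trans {F x y z : ZFSet.{u}} {n : Ordinal.{u}} (h1 : AgV F x z n) (h2 : AgV F y z n) :
    AgV F x y n := fun k hk a => (h1 k hk a).trans (h2 k hk a).symm

theorem cs_iff {μ ρ n δ : Ordinal.{u}} {F : ZFSet.{u}} :
    Cs μ.toZFSet ρ.toZFSet F n.toZFSet δ.toZFSet
      (ZFSet.prod δ.toZFSet (ZFSet.powerset ρ.toZFSet)) ↔ CnV δ μ ρ F n := by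
  classical
  constructor
  · rintro ⟨_, hτ, h, -, hh⟩
    obtain ⟨τ, hτδ, rfl⟩ := mem_toZFSet_iff.1 hτ
    refine ⟨τ, hτδ, ?_⟩
    refine ⟨fun a => if hx : ∃ y : ZFSet.{u}, y ⊆ ρ.toZFSet ∧ ZFSet.pair a.toZFSet y ∈ h then
      Classical.choose hx else ∅, fun x hx hp => ?_⟩
    obtain ⟨_, h3, y, hy, h4, h5, h6⟩ := hh x hx (pcs_iff.2 hp)
    obtain ⟨a, ha, rfl⟩ := mem_toZFSet_iff.1 h3
    refine ⟨a, ha, ?_⟩
    have hex : ∃ y : ZFSet.{u}, y ⊆ ρ.toZFSet ∧ ZFSet.pair a.toZFSet y ∈ h := ⟨y, hy, h4⟩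
    have e : (if hx : ∃ y : ZFSet.{u}, y ⊆ ρ.toZFSet ∧ ZFSet.pair a.toZFSet y ∈ h then
      Classical.choose hx else ∅) = y := by
      rw [dif_pos hex]
      obtain ⟨h7, h8⟩ := Classical.choose_spec hex
      exact h6 _ h7 h8
    show AgV F x (if hx : ∃ y : ZFSet.{u}, y ⊆ ρ.toZFSet ∧ ZFSet.pair a.toZFSet y ∈ h then
      Classical.choose hx else ∅) n
    rw [e]
    exact av_iff.1 h5
  · rintro ⟨τ, hτδ, g, hg⟩
    obtain ⟨g', hg'⟩ : ∃ g' : Ordinal.{u} → ZFSet.{u}, ∀ a, g' a ⊆ ρ.toZFSet ∧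
        ∀ x ⊆ ρ.toZFSet, AgV F x (g a) n → AgV F (g' a) (g a) n := by
      refine ⟨fun a => if hx : ∃ x : ZFSet.{u}, x ⊆ ρ.toZFSet ∧ AgV F x (g a) n then
        Classical.choose hx else ∅, fun a => ?_⟩
      by_cases hex : ∃ x : ZFSet.{u}, x ⊆ ρ.toZFSet ∧ AgV F x (g a) n
      · have e : (if hx : ∃ x : ZFSet.{u}, x ⊆ ρ.toZFSet ∧ AgV F x (g a) n then
            Classical.choose hx else ∅) = Classical.choose hex := dif_pos hex
        simp only [e]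
        exact ⟨(Classical.choose_spec hex).1, fun _ _ _ => (Classical.choose_spec hex).2⟩
      · have e : (if hx : ∃ x : ZFSet.{u}, x ⊆ ρ.toZFSet ∧ AgV F x (g a) n then
            Classical.choose hx else ∅) = ∅ := dif_neg hex
        simp only [e]
        exact ⟨ZFSet.empty_subset _, fun x h1 h2 => absurd ⟨x, h1, h2⟩ hex⟩
    refine ⟨τ.toZFSet, toZFSet_mem_toZFSet_iff.2 hτδ,
      ZFSet.sep (fun z => ∃ a < τ, z = ZFSet.pair a.toZFSet (g' a))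
        (ZFSet.prod δ.toZFSet (ZFSet.powerset ρ.toZFSet)), ?_, ?_⟩
    · intro z hz
      exact (ZFSet.mem_sep.1 hz).1
    · intro x hx hp
      obtain ⟨a, ha, hag⟩ := hg x hx (pcs_iff.1 hp)
      refine ⟨a.toZFSet, toZFSet_mem_toZFSet_iff.2 ha, g' a, (hg' a).1, ?_, ?_, ?_⟩
      · rw [ZFSet.mem_sep, ZFSet.pair_mem_prod, ZFSet.mem_powerset]
        exact ⟨⟨toZFSet_mem_toZFSet_iff.2 (ha.trans hτδ), (hg' a).1⟩, a, ha, rfl⟩
      · exact av_iff.2 (agv_trans hag ((hg' a).2 x hx hag))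
      · intro y' _ hp'
        obtain ⟨-, b, hb, e⟩ := ZFSet.mem_sep.1 hp'
        obtain ⟨e1, e2⟩ := ZFSet.pair_injective e
        rw [toZFSet_injective e1, e2]

/-- LCV. -/
theorem pf_LCV (h : T_LAV.{u}) : T_LCV.{u} := by
  unfold T_LCV
  refine Loc.congr (P := fun v => (v 0).IsOrdinal ∧ (v 1).IsOrdinal ∧ (v 3).IsOrdinal ∧
    (v 4).IsOrdinal ∧ ∃ q, q = ZFSet.powerset (v 1) ∧ ∃ p, p = ZFSet.prod (v 4) q ∧
      Cs (v 0) (v 1) (v 2) (v 3) (v 4) p) ?_ ?_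
  · refine (loc_ord 0).and ((loc_ord 1).and ((loc_ord 3).and ((loc_ord 4).and (Loc.ex ?_ ?_))))
    · refine (loc_powerset 0 2).and (Loc.ex (R := fun p v => p = ZFSet.prod (v 5) (v 0) ∧
        Cs (v 1) (v 2) (v 3) (v 4) (v 5) p) ?_ ?_)
      · exact (loc_prod 0 6 1).and (loc_cs h 2 3 4 5 6 0)
      · rintro η hη v hv x ⟨rfl, -⟩
        exact hη.prod (hv _) (hv _)
    · rintro η hη v hv x ⟨rfl, -⟩
      exact hη.powerset (hv _)
  · intro v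
    refine and_congr_right fun h0 => and_congr_right fun h1 => and_congr_right fun h3 =>
      and_congr_right fun h4 => ?_
    rw [exists_eq_left, exists_eq_left]
    have := cs_iff (μ := (v 0).rank) (ρ := (v 1).rank) (n := (v 3).rank) (δ := (v 4).rank)
      (F := v 2)
    rw [h0.toZFSet_rank_eq, h1.toZFSet_rank_eq, h3.toZFSet_rank_eq, h4.toZFSet_rank_eq] at this
    exact this.symm

end Pool.Agent.H68.HV
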